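import Pool.Agent.FFG.A1.Family

/-!
# MP_953b23_mp: gapped families whose phase contains a state with a local entropy axiom

The conclusion of Q1 holds for every gapped family with unique ground states `Ψ L` such that, for
some unit vectors `Ψ' L`, the vectors `Ψ L ⊗ Ψ' L` are joined by gapped paths to vectors `Φ L` which
satisfy, for one grid of cells of polylogarithmic side, the axiom
`S(A ∪ B) + S(A ∪ D) - S(B) - S(D) ≤ polylog / L ^ 2`, where `B` and `D` are two arcs, whose union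
is the ring of the eight neighbours of the cell `A`.
-/

set_option autoImplicit false

open Pool.Agent.PEPS953.Plain Pool.Agent.FFG.APlain Pool.Agent.FFG.GPlain

namespace Pool.Agent.Results.MP_953b23_mp.EntropyAxiom

open Pool.Agent.PEPS953 (up up_ofLp up_sub nrm_eq ip_eq up_ne_zero upF isGapped_iff polyAcc_iff
  quasiOverlap_iff IsGappedGS polyAcc_of_quasiAcc quasiAcc_of_quasiOverlap)

/-- **Main theorem.** Let `H_L`, the sum of all translates of `h`, have for all large `L` a unique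
ground state `Ψ L` and a gap of at least `Δ > 0`. Then the conclusion `PolyAcc` of Q1 holds if the
vectors `Ψ L` satisfy the local entropy axiom `EntropyAxiom`. It also holds if, for some unit
vectors `Ψ' L`, the products `Ψ L ⊗ Ψ' L` are joined by gapped paths, of polylogarithmic range,
norms and inverse gap, to vectors `Φ L` which satisfy it. -/
theorem result {d : ℕ} (hd : 2 ≤ d) (r : ℕ) (h : Matrix (LConf d r) (LConf d r) ℂ) (Δ : ℝ)
    (E : ℕ → ℝ) (Ψ : ∀ (L : ℕ) [NeZero L], Vec d L) (hr : 0 < r) (hh : h.IsHermitian) (hΔ : 0 < Δ)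
    (hgs : ∃ L₁ : ℕ, ∀ (L : ℕ) [NeZero L], L₁ ≤ L → IsGapped (ham L h) (E L) Δ (Ψ L)) :
    (EntropyAxiom Ψ → PolyAcc Ψ) ∧
    ∀ (d' a : ℕ) (C₀ : ℝ) (L₁ : ℕ) (Ψ' : ∀ (L : ℕ) [NeZero L], Vec d' L)
      (Φ : ∀ (L : ℕ) [NeZero L], Vec (d * d') L),
      (∀ (L : ℕ) [NeZero L], L₁ ≤ L →
        nrm (Ψ' L) = 1 ∧ Joined a C₀ L (Φ L) (stack (Ψ L) (Ψ' L))) →
      EntropyAxiom Φ → PolyAcc Ψ := by
  have hd0 : 0 < d := by omega
  have hgs1 : ∃ L₁ : ℕ, ∀ (L : ℕ) [NeZero L], L₁ ≤ L →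
      IsGappedGS (Pool.Agent.PEPS953.ham L h) (E L) Δ (upF Ψ L) := by
    obtain ⟨L₁, hL₁⟩ := hgs
    exact ⟨L₁, fun L _ hL => (isGapped_iff h (E L) Δ (Ψ L)).mp (hL₁ L hL)⟩
  have hΨ' : ∃ L₁ : ℕ, ∀ (L : ℕ) [NeZero L], L₁ ≤ L → ‖upF Ψ L‖ = 1 := by
    obtain ⟨L₁, hL₁⟩ := hgs1
    exact ⟨L₁, fun L _ hL => (hL₁ L hL).norm_eq⟩
  have h1 : Pool.Agent.PEPS953.QuasiOverlap (upF Ψ) → PolyAcc Ψ := fun h2 =>
    (polyAcc_iff Ψ).mpr (polyAcc_of_quasiAcc (quasiAcc_of_quasiOverlap hr hh hΔ hgs1 h2))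
  refine ⟨fun h2 => h1 (Pool.Agent.FFG.A1.overlap_of_cond (Ψ := upF Ψ) hd0 hΨ'
    (Pool.Agent.FFG.A1.family (Ψ := upF Ψ) hd0 hΨ' h2)), ?_⟩
  intro d' a C₀ L₁ Ψ' Φ H h2
  have hd' : 0 < d' := by
    have : NeZero (L₁ + 1) := ⟨Nat.succ_ne_zero _⟩
    rcases Nat.eq_zero_or_pos d' with rfl | h
    · exfalso
      have h1 := (H (L₁ + 1) (Nat.le_succ _)).1
      unfold nrm at h1
      rw [Finset.univ_eq_empty_iff.mpr ⟨fun s => (s (0, 0)).elim0⟩, Finset.sum_empty,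
        Real.sqrt_zero] at h1
      exact zero_ne_one h1
    · exact h
  have hd2 : 2 ≤ d * d' := hd.trans (Nat.le_mul_of_pos_right d hd')
  have hΦ : ∃ L₁ : ℕ, ∀ (L : ℕ) [NeZero L], L₁ ≤ L → ‖upF Φ L‖ = 1 := by
    refine ⟨L₁, fun L _ hL => ?_⟩
    obtain ⟨r, J, Δ, -, -, -, -, -, h6⟩ := (H L hL).2
    have h7 := unit_left h6
    rw [nrm_eq] at h7
    exact h7
  have h3 := Pool.Agent.FFG.A1.overlap_of_cond (Ψ := upF Φ) (by omega) hΦ
    (Pool.Agent.FFG.A1.family (Ψ := upF Φ) (by omega) hΦ h2)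
  have h4 := Pool.Agent.FFG.A1.transport hd2 (fun L _ hL => (H L hL).2) h3
  refine h1 <| Pool.Agent.FFG.A1.overlap_left (Ψ := upF Ψ) (Ψ' := upF Ψ') (L₁ := L₁)
    (fun L _ hL => ?_) h4
  have h5 := (H L hL).1
  rw [nrm_eq] at h5
  exact h5

end Pool.Agent.Results.MP_953b23_mp.EntropyAxiom
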