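import Pool.Agent.FFG.LT.All

/-!
# MP_953b23_mp: frustration-free, locally gapped Hamiltonians with few zero-energy states

Q1 holds for frustration-free families which are locally gapped and in which the removal of the
terms at the positions of a set `S` leaves at most `exp (polylog(L) (1 + |S|))` zero-energy states.
The last hypothesis holds if there are no exotic zero-energy states, that is, if no zero-energy
vector of the terms outside `S` can be perfectly distinguished from the ground state away from `S`.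
The spectral hypothesis of the known theorem is not assumed: it is a consequence, in
quasi-polynomial form.
-/

set_option autoImplicit false

open scoped ComplexOrder
open Pool.Agent.PEPS953.Plain Pool.Agent.FFG.Plain

namespace Pool.Agent.Results.MP_953b23_mp.FrustrationFree

/-- Every space of vectors of energy at most `M` has dimension at most `n`. -/
def LowDim {d r : ℕ} (L : ℕ) [NeZero L] (h : Matrix (LConf d r) (LConf d r) ℂ) (M n : ℝ) : Prop :=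
  ∀ V : Submodule ℂ (Vec d L),
    (∀ v ∈ V, (ip v ((ham L h).mulVec v)).re ≤ M * nrm v ^ 2) → (Module.finrank ℂ V : ℝ) ≤ n

/-- `Ψ` is a unit vector of energy `0`, and every vector of energy `0` is a multiple of it. -/
def UniqueZero {d r : ℕ} (L : ℕ) [NeZero L] (h : Matrix (LConf d r) (LConf d r) ℂ)
    (Ψ : Vec d L) : Prop :=
  nrm Ψ = 1 ∧ (ham L h).mulVec Ψ = 0 ∧ ∀ φ : Vec d L, (ham L h).mulVec φ = 0 → ∃ c : ℂ, φ = c • Ψ

lemma fewZero_mono {d r L : ℕ} [NeZero L] {h : Matrix (LConf d r) (LConf d r) ℂ} {κ κ' : ℝ}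
    (hk : κ ≤ κ') (H : FewZero L h κ) : FewZero L h κ' := fun S =>
  (H S).trans (Real.exp_le_exp.mpr (mul_le_mul_of_nonneg_right hk (by positivity)))

open Pool.Agent.PEPS953 (up up_ofLp up_sub nrm_eq ip_eq up_mulVec_ham) in
/-- The statement for one torus. -/
theorem one_torus {d r : ℕ} (hd : 2 ≤ d) (hr : 0 < r) {h : Matrix (LConf d r) (LConf d r) ℂ}
    (hh : h.PosSemidef) (k₀ a : ℕ) {C₀ : ℝ} (hC₀ : 0 < C₀) :
    ∃ (C : ℝ) (L₀ : ℕ), 0 < C ∧ ∀ (L : ℕ) [NeZero L], L₀ ≤ L → LocallyGapped L h k₀ a C₀ →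
      ∀ κ : ℝ, 1 ≤ κ → FewZero L h κ →
        (∀ M : ℝ, 0 ≤ M →
          LowDim L h M (Real.exp (C * κ * (1 + M) * (Real.log L) ^ (4 * k₀ + 4)))) ∧
        ∀ Ψ : Vec d L, UniqueZero L h Ψ → ∃ (D : ℕ) (Φ : Vec d L), IsPEPS D Φ ∧
          (D : ℝ) ≤ Real.exp (C * κ * (Real.log L) ^ (4 * k₀ + 4)) ∧
          nrm (Φ - Ψ) ≤ (L : ℝ) ^ (-κ) := by
  obtain ⟨C, L₀, hC, H⟩ := Pool.Agent.FFG.family hd hr hh k₀ a hC₀
  refine ⟨C, L₀, hC, fun L _ hL hLG κ hκ hF => ?_⟩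
  obtain ⟨H1, H2⟩ := H L hL (lg_of_locallyGapped hLG) κ hκ ((fewZero_iff h κ).mp hF)
  constructor
  · intro M hM V hV
    have h1 := H1 M hM (V.map (upL (d := d) (L := L)).toLinearMap) ?_
    · rwa [LinearEquiv.finrank_map_eq (upL (d := d) (L := L)) V] at h1
    · intro y hy
      obtain ⟨v, hv, rfl⟩ := Submodule.mem_map.mp hy
      have h2 := hV v hv
      rw [ip_eq, nrm_eq, up_mulVec_ham] at h2
      exact h2
  · rintro Ψ ⟨hΨ1, hΨ2, hΨ3⟩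
    obtain ⟨D, Φ, hD1, hD2, hD3⟩ := H2 (up Ψ) (by rw [← nrm_eq]; exact hΨ1)
      (by rw [← up_mulVec_ham, hΨ2]; rfl) (fun φ hφ => by
        obtain ⟨c, hc⟩ := hΨ3 φ.ofLp (by
          have h3 := up_mulVec_ham h φ.ofLp
          rw [up_ofLp φ, hφ] at h3
          exact congrArg WithLp.ofLp h3)
        exact ⟨c, by rw [← Pool.Agent.PEPS953.up_smul, ← hc, up_ofLp]⟩)
    refine ⟨D, Φ.ofLp, hD1, hD2, ?_⟩
    rw [nrm_eq, up_sub, up_ofLp]
    exact hD3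

/-- Topological order implies few zero-energy states. -/
theorem fewZero_of_top {d r : ℕ} (hd : 2 ≤ d) (hr : 0 < r) {h : Matrix (LConf d r) (LConf d r) ℂ}
    (hh : h.PosSemidef) (k₀ : ℕ) {C₀ : ℝ} (hC₀ : 0 < C₀) (k₁ : ℕ) (C₁ : ℝ) :
    ∃ (C₂ : ℝ) (L₀ : ℕ), ∀ (L : ℕ) [NeZero L], L₀ ≤ L →
      RectGap L h (1 / (C₀ * (Real.log L) ^ k₀)) → TopOrd L h ⌊C₁ * (Real.log L) ^ k₁⌋₊ →
      ∀ Ψ : Vec d L, UniqueZero L h Ψ → FewZero L h (C₂ * (Real.log L) ^ (2 * (k₀ + k₁ + 1) + 1)) := by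
  obtain ⟨C₂, L₀, H⟩ := Pool.Agent.FFG.LT.fewZero_of_topOrd hd hr hh k₀ hC₀ k₁ |C₁|
  refine ⟨C₂, max L₀ 1, fun L _ hL hR hT Ψ hΨ => (fewZero_iff h _).mpr ?_⟩
  have hlog : 0 ≤ Real.log L := Real.log_nonneg (by exact_mod_cast (le_max_right _ _).trans hL)
  refine H L ((le_max_left _ _).trans hL) ((rectGap_iff h _).mp hR) _ ?_ (topOrd_iff hT)
    ⟨Pool.Agent.PEPS953.up Ψ, ?_, ?_⟩
  · refine (Nat.floor_le_floor (mul_le_mul_of_nonneg_right (le_abs_self C₁) (by positivity))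
      |> fun h5 => (Nat.cast_le (α := ℝ)).mpr h5).trans (Nat.floor_le (by positivity))
  · rw [Pool.Agent.PEPS953.up_ne_zero]
    rintro rfl
    have h1 := hΨ.1
    rw [Pool.Agent.PEPS953.nrm_eq] at h1
    have h2 : Pool.Agent.PEPS953.up (0 : Vec d L) = 0 := rfl
    rw [h2, norm_zero] at h1
    exact zero_ne_one h1
  · have h1 := up_hamOn h (Finset.univ : Finset (Site L)) Ψ
    have h2 : hamOn L h (Finset.univ : Finset (Site L)) = ham L h := rfl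
    rw [h2, hΨ.2.1] at h1
    exact h1.symm

/-- **Main theorem.** -/
theorem result {d r : ℕ} (hd : 2 ≤ d) (hr : 0 < r) {h : Matrix (LConf d r) (LConf d r) ℂ}
    (hh : h.PosSemidef) (k₀ a : ℕ) {C₀ : ℝ} (hC₀ : 0 < C₀) :
    (∃ (C : ℝ) (L₀ : ℕ), 0 < C ∧ ∀ (L : ℕ) [NeZero L], L₀ ≤ L → LocallyGapped L h k₀ a C₀ →
      ∀ κ : ℝ, 1 ≤ κ → FewZero L h κ →
        (∀ M : ℝ, 0 ≤ M →
          LowDim L h M (Real.exp (C * κ * (1 + M) * (Real.log L) ^ (4 * k₀ + 4)))) ∧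
        ∀ Ψ : Vec d L, UniqueZero L h Ψ → ∃ (D : ℕ) (Φ : Vec d L), IsPEPS D Φ ∧
          (D : ℝ) ≤ Real.exp (C * κ * (Real.log L) ^ (4 * k₀ + 4)) ∧
          nrm (Φ - Ψ) ≤ (L : ℝ) ^ (-κ)) ∧
    ∀ (Ψ : ∀ (L : ℕ) [NeZero L], Vec d L) (k₁ : ℕ) (C₁ : ℝ) (L₁ : ℕ),
      (∀ (L : ℕ) [NeZero L], L₁ ≤ L → UniqueZero L h (Ψ L) ∧ LocallyGapped L h k₀ a C₀ ∧
        (FewZero L h (C₁ * (Real.log L) ^ k₁) ∨ NoExotic L h (Ψ L) ⌊C₁ * (Real.log L) ^ k₁⌋₊ ∨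
          (RectGap L h (1 / (C₀ * (Real.log L) ^ k₀)) ∧
            TopOrd L h ⌊C₁ * (Real.log L) ^ k₁⌋₊))) →
      PolyAcc Ψ ∧ ∀ M : ℝ, ∃ (k : ℕ) (C : ℝ) (L₀ : ℕ), ∀ (L : ℕ) [NeZero L],
        L₀ ≤ L → LowDim L h M (Real.exp (C * (Real.log L) ^ k)) := by
  obtain ⟨C, L₀, hC, H⟩ := one_torus hd hr hh k₀ a hC₀
  refine ⟨⟨C, L₀, hC, H⟩, fun Ψ k₁ C₁ L₁ hΨ => ?_⟩
  obtain ⟨C₂, L₀', HT⟩ := fewZero_of_top hd hr hh k₀ hC₀ k₁ C₁
  have hlogd : 0 ≤ Real.log d := Real.log_nonneg (by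
    have : (2 : ℝ) ≤ d := by exact_mod_cast hd
    linarith)
  obtain ⟨m, hm⟩ : ∃ m : ℕ, m = 2 * (k₀ + k₁ + 1) + 1 := ⟨_, rfl⟩
  obtain ⟨C₃, hC₃⟩ : ∃ C₃ : ℝ, C₃ = 1 + |C₁| + |C₂| + 2 * (2 * |C₁| + 1) ^ 2 * Real.log d :=
    ⟨_, rfl⟩
  have habs : 0 ≤ |C₁| := abs_nonneg _
  have habs2 : 0 ≤ |C₂| := abs_nonneg _
  have hterm : 0 ≤ 2 * (2 * |C₁| + 1) ^ 2 * Real.log d := by positivity
  have hC₃1 : 1 ≤ C₃ := by rw [hC₃]; linarith
  obtain ⟨L₂, hL₂⟩ : ∃ L₂ : ℕ, L₂ = max L₀ (max L₁ (max L₀' 3)) := ⟨_, rfl⟩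
  -- the hypotheses for one torus
  have key : ∀ (L : ℕ) [NeZero L], L₂ ≤ L → ∀ κ : ℝ, C₃ * (Real.log L) ^ m ≤ κ →
      1 ≤ Real.log L ∧ 1 ≤ κ ∧ L₀ ≤ L ∧ UniqueZero L h (Ψ L) ∧ LocallyGapped L h k₀ a C₀ ∧
        FewZero L h κ := by
    intro L _ hL κ hκ
    rw [hL₂, max_le_iff, max_le_iff, max_le_iff] at hL
    obtain ⟨hL0, hL1, hL0', hL3⟩ := hL
    have hℓ : 1 ≤ Real.log L := by
      have h1 : (3 : ℝ) ≤ L := by exact_mod_cast hL3
      rw [Real.le_log_iff_exp_le (by linarith)]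
      have := Real.exp_one_lt_d9
      linarith
    obtain ⟨h1, h2, h3⟩ := hΨ L hL1
    have hp1 : (Real.log L) ^ k₁ ≤ (Real.log L) ^ m := pow_le_pow_right₀ hℓ (by omega)
    have hp2 : (Real.log L) ^ (2 * k₁) ≤ (Real.log L) ^ m := pow_le_pow_right₀ hℓ (by omega)
    have hp0 : 1 ≤ (Real.log L) ^ k₁ := one_le_pow₀ hℓ
    have hp3 : 1 ≤ (Real.log L) ^ m := one_le_pow₀ hℓ
    have hκ1 : 1 ≤ κ := (one_le_mul_of_one_le_of_one_le hC₃1 hp3).trans hκ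
    refine ⟨hℓ, hκ1, hL0, h1, h2, ?_⟩
    rcases h3 with h3 | h3 | h3
    · refine fewZero_mono ?_ h3
      refine le_trans ?_ hκ
      calc C₁ * (Real.log L) ^ k₁ ≤ |C₁| * (Real.log L) ^ k₁ :=
            mul_le_mul_of_nonneg_right (le_abs_self _) (by linarith)
        _ ≤ C₃ * (Real.log L) ^ m :=
            mul_le_mul (by rw [hC₃]; linarith) hp1 (by linarith) (by linarith)
    · refine fewZero_mono ?_ ((fewZero_iff h _).mpr
        (Pool.Agent.FFG.fewZero_of_noExotic hd (noExotic_of h3)))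
      refine le_trans ?_ hκ
      have h4 : (⌊C₁ * (Real.log L) ^ k₁⌋₊ : ℝ) ≤ |C₁| * (Real.log L) ^ k₁ := by
        have h5 : ⌊C₁ * (Real.log L) ^ k₁⌋₊ ≤ ⌊|C₁| * (Real.log L) ^ k₁⌋₊ :=
          Nat.floor_le_floor (mul_le_mul_of_nonneg_right (le_abs_self _) (by linarith))
        have h6 : (⌊C₁ * (Real.log L) ^ k₁⌋₊ : ℝ) ≤ (⌊|C₁| * (Real.log L) ^ k₁⌋₊ : ℝ) := by
          exact_mod_cast h5
        exact h6.trans (Nat.floor_le (by positivity))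
      have h5 : 2 * (⌊C₁ * (Real.log L) ^ k₁⌋₊ : ℝ) + 1 ≤ (2 * |C₁| + 1) * (Real.log L) ^ k₁ := by
        linarith
      calc 2 * (2 * (⌊C₁ * (Real.log L) ^ k₁⌋₊ : ℝ) + 1) ^ 2 * Real.log d ≤
            2 * ((2 * |C₁| + 1) * (Real.log L) ^ k₁) ^ 2 * Real.log d := by gcongr
        _ = (2 * (2 * |C₁| + 1) ^ 2 * Real.log d) * (Real.log L) ^ (2 * k₁) := by
            rw [mul_pow, ← pow_mul, mul_comm k₁ 2]
            ring
        _ ≤ C₃ * (Real.log L) ^ m := by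
            refine mul_le_mul ?_ hp2 (by positivity) (by linarith)
            rw [hC₃]; linarith
    · refine fewZero_mono ?_ (HT L hL0' h3.1 h3.2 (Ψ L) h1)
      refine le_trans ?_ hκ
      rw [← hm]
      calc C₂ * (Real.log L) ^ m ≤ |C₂| * (Real.log L) ^ m :=
            mul_le_mul_of_nonneg_right (le_abs_self _) (by linarith)
        _ ≤ C₃ * (Real.log L) ^ m :=
            mul_le_mul_of_nonneg_right (by rw [hC₃]; linarith) (by linarith)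
  refine ⟨fun c hc => ?_, fun M => ?_⟩
  · refine ⟨m + (4 * k₀ + 4), C * (C₃ + c), L₂, fun L _ hL => ?_⟩
    obtain ⟨hℓ, hκ1, hL0, h1, h2, h3⟩ := key L hL ((C₃ + c) * (Real.log L) ^ m) (by
      have : 0 ≤ (Real.log L) ^ m := by
        have h9 : 0 ≤ Real.log L := Real.log_natCast_nonneg L
        positivity
      nlinarith)
    obtain ⟨D, Φ, hD1, hD2, hD3⟩ := (H L hL0 h2 _ hκ1 h3).2 (Ψ L) h1
    have hp3 : 1 ≤ (Real.log L) ^ m := one_le_pow₀ hℓ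
    have hL1 : (1 : ℝ) ≤ L := by exact_mod_cast NeZero.one_le
    refine ⟨D, Φ, hD1, hD2.trans (Real.exp_le_exp.mpr (le_of_eq ?_)), hD3.trans ?_⟩
    · rw [pow_add]; ring
    · apply Real.rpow_le_rpow_of_exponent_le hL1
      nlinarith
  · refine ⟨m + (4 * k₀ + 4), C * C₃ * (1 + |M|), L₂, fun L _ hL V hV => ?_⟩
    obtain ⟨hℓ, hκ1, hL0, h1, h2, h3⟩ := key L hL _ le_rfl
    have h4 := (H L hL0 h2 _ hκ1 h3).1 |M| (abs_nonneg _) V fun v hv =>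
      (hV v hv).trans (mul_le_mul_of_nonneg_right (le_abs_self _) (sq_nonneg _))
    refine h4.trans (Real.exp_le_exp.mpr (le_of_eq ?_))
    rw [pow_add]; ring

end Pool.Agent.Results.MP_953b23_mp.FrustrationFree
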