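import Pool.Agent.FFG.GP.Multi
import Pool.Agent.FFG.GP.Path2

/-!
# MP_953b23_mp: gapped paths, tensor factors and scales

Let the products `Ψ L ⊗ Ψ' L` be joined to the vectors `Φ L` by gapped paths of Hamiltonians. Then
Q1's conclusion holds for `Φ` if and only if it holds for `Ψ` and for `Ψ'`. It holds if every `Φ L`
is either a PEPS of quasi-polynomial bond dimension, such as a product vector, or is obtained from
`Ψ L' ⊗ Ψ' L'`, for some `L' ≤ L / 2`, by the insertion of rows and columns of product sites. In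
particular it holds for all invertible families.
-/

set_option autoImplicit false

open Pool.Agent.PEPS953.Plain Pool.Agent.FFG.GPlain

namespace Pool.Agent.Results.MP_953b23_mp.Invertible

/-- A gapped path can be reversed. -/
lemma reverse {d r L : ℕ} [NeZero L] {J Δ : ℝ} {x y : Vec d L} (H : GappedPath L r J Δ x y) :
    GappedPath L r J Δ y x := by
  obtain ⟨h, h', E, Ψ, h1, h2, h3, h4, h5, h6, h7⟩ := H
  have hmem : ∀ s ∈ Set.Icc (0 : ℝ) 1, 1 - s ∈ Set.Icc (0 : ℝ) 1 := fun s hs =>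
    ⟨by linarith [hs.2], by linarith [hs.1]⟩
  refine ⟨fun v s => h v (1 - s), fun v s => - h' v (1 - s), fun s => E (1 - s),
    fun s => Ψ (1 - s), fun v s hs => h1 v _ (hmem s hs), ?_, ?_, ?_,
    fun s hs => h5 _ (hmem s hs), by simp only [sub_zero]; exact h7, by simp only [sub_self]; exact h6⟩
  · intro v s hs a b
    have e1 : HasDerivWithinAt (fun t : ℝ => 1 - t) (-1) (Set.Icc 0 1) s :=
      ((hasDerivAt_id s).const_sub 1).hasDerivWithinAt
    have e2 := (h2 v _ (hmem s hs) a b).scomp s e1 hmem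
    have e3 : (-1 : ℝ) • h' v (1 - s) a b = (-h' v (1 - s)) a b := by
      rw [neg_one_smul]; rfl
    rw [e3] at e2
    exact e2
  · intro v a b
    exact ((h3 v a b).comp (continuous_const.sub continuous_id).continuousOn hmem).neg
  · intro v s hs
    refine ⟨(h4 v _ (hmem s hs)).1, fun x => ?_⟩
    have e : nrm ((translate L (-h' v (1 - s)) v).mulVec x) =
        nrm ((translate L (h' v (1 - s)) v).mulVec x) := by
      rw [Pool.Agent.PEPS953.nrm_eq, Pool.Agent.PEPS953.nrm_eq]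
      have e1 : translate L (-h' v (1 - s)) v = - translate L (h' v (1 - s)) v := by
        ext a b
        simp only [Pool.Agent.PEPS953.Plain.translate, Matrix.neg_apply]
        split_ifs <;> simp
      rw [e1, Matrix.neg_mulVec]
      exact norm_neg (Pool.Agent.PEPS953.up ((translate L (h' v (1 - s)) v).mulVec x))
    exact e ▸ (h4 v _ (hmem s hs)).2 x

lemma joined_symm {a : ℕ} {C₀ : ℝ} {d L : ℕ} [NeZero L] {x y : Vec d L} (H : Joined a C₀ L x y) :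
    Joined a C₀ L y x := by
  obtain ⟨r, J, Δ, h1, h2, h3, h4, h5, h6⟩ := H
  exact ⟨r, J, Δ, h1, h2, h3, h4, h5, reverse h6⟩

lemma forward {d : ℕ} (hd : 2 ≤ d) {a : ℕ} {C₀ : ℝ}
    {Ψ₀ Ψ₁ : ∀ (L : ℕ) [NeZero L], Vec d L} {L₁ : ℕ}
    (H : ∀ (L : ℕ) [NeZero L], L₁ ≤ L → Joined a C₀ L (Ψ₀ L) (Ψ₁ L)) (h0 : PolyAcc Ψ₀) :
    PolyAcc Ψ₁ := by
  rw [Pool.Agent.PEPS953.polyAcc_iff] at h0 ⊢
  refine Pool.Agent.FFG.GP.gapped_path2 hd a C₀ _ _ L₁ (fun L _ hL => ?_) h0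
  obtain ⟨r, J, Δ, h1, h2, h3, h4, h5, h6⟩ := H L hL
  exact ⟨r, J, Δ, h1, h2, h3, h4, h5, gpath2_of h6⟩

lemma products {d d' : ℕ} {Ψ : ∀ (L : ℕ) [NeZero L], Vec d L}
    {Ψ' : ∀ (L : ℕ) [NeZero L], Vec d' L} {L₁ : ℕ}
    (H : ∀ (L : ℕ) [NeZero L], L₁ ≤ L → nrm (Ψ L) = 1 ∧ nrm (Ψ' L) = 1) :
    (PolyAcc fun (L : ℕ) [NeZero L] => stack (Ψ L) (Ψ' L)) ↔ PolyAcc Ψ ∧ PolyAcc Ψ' := by
  have h1 : ∀ (L : ℕ) [NeZero L], L₁ ≤ L → ‖Pool.Agent.PEPS953.upF Ψ L‖ = 1 := fun L _ hL => by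
    rw [← (H L hL).1, Pool.Agent.PEPS953.nrm_eq]; rfl
  have h2 : ∀ (L : ℕ) [NeZero L], L₁ ≤ L → ‖Pool.Agent.PEPS953.upF Ψ' L‖ = 1 := fun L _ hL => by
    rw [← (H L hL).2, Pool.Agent.PEPS953.nrm_eq]; rfl
  have h3 := Pool.Agent.FFG.GP.polyAcc_stk_iff h1 h2
  rw [Pool.Agent.PEPS953.polyAcc_iff Ψ, Pool.Agent.PEPS953.polyAcc_iff Ψ', ← h3,
    Pool.Agent.PEPS953.polyAcc_iff]
  rfl

/-- The vectors of a stably joined family are unit vectors. -/
lemma unit_of_path {d d' r L : ℕ} [NeZero L] {J Δ : ℝ} {x : Vec (d * d') L} {y : Vec d L}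
    {z : Vec d' L} (hz : nrm z = 1) (H : GappedPath L r J Δ x (stack y z)) : nrm y = 1 := by
  have h8 := unit_right H
  rw [Pool.Agent.PEPS953.nrm_eq, up_stack, Pool.Agent.FFG.GP.norm_stk,
    ← Pool.Agent.PEPS953.nrm_eq, ← Pool.Agent.PEPS953.nrm_eq, hz, mul_one] at h8
  exact h8

/-- **Main theorem.** Let the products `Ψ L ⊗ Ψ' L`, where the `Ψ' L` are unit vectors, be joined to
`Φ L` by gapped paths for all large `L`. Then Q1's conclusion holds for `Φ` if and only if it holds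
for both `Ψ` and `Ψ'`. It holds for all of them if every `Φ L` is a PEPS of quasi-polynomial bond
dimension (for example a product vector) or is obtained from a product `Ψ L' ⊗ Ψ' L'` with
`L' ≤ L / 2` by the insertion of rows and columns of product sites. -/
theorem result {d d' : ℕ} (hd : 2 ≤ d) (a : ℕ) (C₀ : ℝ) (L₁ : ℕ)
    (Ψ : ∀ (L : ℕ) [NeZero L], Vec d L) (Ψ' : ∀ (L : ℕ) [NeZero L], Vec d' L)
    (Φ : ∀ (L : ℕ) [NeZero L], Vec (d * d') L)
    (H : ∀ (L : ℕ) [NeZero L], L₁ ≤ L →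
      nrm (Ψ' L) = 1 ∧ Joined a C₀ L (Φ L) (stack (Ψ L) (Ψ' L))) :
    (PolyAcc Φ ↔ PolyAcc Ψ ∧ PolyAcc Ψ') ∧
    ((∀ (L : ℕ) [NeZero L], L₁ ≤ L → Simple a C₀ L (fun L _ => stack (Ψ L) (Ψ' L)) (Φ L)) →
      PolyAcc Φ ∧ PolyAcc Ψ ∧ PolyAcc Ψ') := by
  have hd' : 0 < d' := by
    have : NeZero (L₁ + 1) := ⟨Nat.succ_ne_zero _⟩
    rcases Nat.eq_zero_or_pos d' with rfl | h
    · exfalso
      have h1 := (H (L₁ + 1) (Nat.le_succ _)).1
      unfold nrm at h1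
      rw [Finset.univ_eq_empty_iff.mpr ⟨fun s => (s (0, 0)).elim0⟩, Finset.sum_empty,
        Real.sqrt_zero] at h1
      exact zero_ne_one h1
    · exact h
  have hd2 : 2 ≤ d * d' := hd.trans (Nat.le_mul_of_pos_right d hd')
  have h1 : ∀ (L : ℕ) [NeZero L], L₁ ≤ L → nrm (Ψ L) = 1 ∧ nrm (Ψ' L) = 1 := by
    intro L _ hL
    obtain ⟨r, J, Δ, -, -, -, -, -, h6⟩ := (H L hL).2
    exact ⟨unit_of_path (H L hL).1 h6, (H L hL).1⟩
  have key : PolyAcc Φ ↔ PolyAcc Ψ ∧ PolyAcc Ψ' := by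
    rw [← products h1]
    exact ⟨forward hd2 fun L _ hL => (H L hL).2,
      forward hd2 fun L _ hL => joined_symm (H L hL).2⟩
  refine ⟨key, fun HS => ?_⟩
  have h2 : PolyAcc fun (L : ℕ) [NeZero L] => stack (Ψ L) (Ψ' L) :=
    multi hd2 a C₀ L₁ _ fun L _ hL => ⟨Φ L, (H L hL).2, HS L hL⟩
  have h3 := (products h1).mp h2
  exact ⟨key.mpr h3, h3⟩

end Pool.Agent.Results.MP_953b23_mp.Invertible
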