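import Pool.Agent.PEPS953.Transfer
import Pool.Agent.PepsY.Main

set_option autoImplicit false

namespace Pool.Agent.Results.MP_953b23_mp.LinearExponent

open Pool.Agent.PEPS953 (up up_ofLp up_sub nrm_eq isGapped_iff)

open Pool.Agent.PEPS953.Plain

/-- For a finite-range interaction `h`, a gap `Δ > 0` and a number `κ` there is a constant `C` such
that, for all large `L`, if `H_L` has a unique ground state `Ψ` with gap `Δ`, then `Ψ` is within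
`exp (-κ L ^ 2)` of a PEPS of bond dimension at most `exp (C L (log L) ^ 2)`. -/
theorem result : ∀ (d r : ℕ) (h : Matrix (LConf d r) (LConf d r) ℂ) (Δ κ : ℝ),
    2 ≤ d → 0 < r → h.IsHermitian → 0 < Δ →
    ∃ (C : ℝ) (L₀ : ℕ), ∀ (L : ℕ) [NeZero L], L₀ ≤ L → ∀ (E : ℝ) (Ψ : Vec d L),
      IsGapped (ham L h) E Δ Ψ →
      ∃ (D : ℕ) (Φ : Vec d L), IsPEPS D Φ ∧
        (D : ℝ) ≤ Real.exp (C * (L : ℝ) * Real.log L ^ 2) ∧
        nrm (Φ - Ψ) ≤ Real.exp (-(κ * (L : ℝ) ^ 2)) := by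
  intro d r h Δ κ hd hr hh hΔ
  obtain ⟨C, L₀, hC, H⟩ := Pool.Agent.PepsY.main_cor hd hr hh hΔ κ
  refine ⟨C, L₀, ?_⟩
  intro L _ hL E Ψ hg
  obtain ⟨D, Φ, h1, h2, h3⟩ := H L hL E (up Ψ) ((isGapped_iff h E Δ Ψ).mp hg)
  refine ⟨D, Φ.ofLp, h1, h2, ?_⟩
  rw [nrm_eq, up_sub, up_ofLp]
  exact h3

end Pool.Agent.Results.MP_953b23_mp.LinearExponent
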